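import Pool.Agent.J6H17.RF.Stm

/-!
# RF-SUB: the instances of the reflection sentence are logical axioms
-/

set_option autoImplicit false

namespace Pool.Agent.J6H22.RF

open Pool.Agent.J6H17.RF

/-- no variable occurs in the term -/
def Closed (t : Tm) : Prop := ∀ i, ¬ t.Occ i

theorem sub_closed (t : Tm) : Closed t → ∀ σ : ℕ → Tm, t.sub σ = t := by
  induction t with
  | var i => intro h; exact absurd rfl (h i)
  | zero => intro _ σ; rfl
  | succ t ih =>
    intro h σ
    rw [Tm.sub, ih (fun i hi => h i hi)]
  | half t ih =>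
    intro h σ
    rw [Tm.sub, ih (fun i hi => h i hi)]
  | len t ih =>
    intro h σ
    rw [Tm.sub, ih (fun i hi => h i hi)]
  | add s t ih1 ih2 =>
    intro h σ
    rw [Tm.sub, ih1 (fun i hi => h i (Or.inl hi)), ih2 (fun i hi => h i (Or.inr hi))]
  | mul s t ih1 ih2 =>
    intro h σ
    rw [Tm.sub, ih1 (fun i hi => h i (Or.inl hi)), ih2 (fun i hi => h i (Or.inr hi))]
  | smash s t ih1 ih2 =>
    intro h σ
    rw [Tm.sub, ih1 (fun i hi => h i (Or.inl hi)), ih2 (fun i hi => h i (Or.inr hi))]

theorem closed_num (n : ℕ) : Closed (num n) := by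
  intro i
  unfold num
  induction n.bits with
  | nil => simp [Tm.Occ]
  | cons b l ih =>
    rw [List.foldr_cons]
    cases b
    · simp only [Bool.false_eq_true, if_false, Tm.Occ, two, or_self, false_or]
      exact ih
    · simp only [if_true, Tm.Occ, two, false_or]
      exact ih

@[simp] theorem num_sub (n : ℕ) (σ : ℕ → Tm) : (num n).sub σ = num n :=
  sub_closed _ (closed_num n) σ

/-- every variable is replaced by a closed term or not at all -/
def Good (σ : ℕ → Tm) : Prop := ∀ i, Closed (σ i) ∨ σ i = Tm.var i

theorem Good.upd {σ : ℕ → Tm} (h : Good σ) (y : ℕ) : Good (Function.update σ y (Tm.var y)) := by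
  intro i
  by_cases hi : i = y
  · subst hi
    right
    simp
  · rw [Function.update_of_ne hi]
    exact h i

theorem tm_sub_sub (t : Tm) (σ τ : ℕ → Tm) :
    (t.sub σ).sub τ = t.sub (fun i => (σ i).sub τ) := by
  induction t with
  | var i => rfl
  | zero => rfl
  | succ t ih => simp only [Tm.sub, ih]
  | half t ih => simp only [Tm.sub, ih]
  | len t ih => simp only [Tm.sub, ih]
  | add s t ih1 ih2 => simp only [Tm.sub, ih1, ih2]
  | mul s t ih1 ih2 => simp only [Tm.sub, ih1, ih2]
  | smash s t ih1 ih2 => simp only [Tm.sub, ih1, ih2]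

theorem fm_sub_sub (φ : Fm) : ∀ σ τ : ℕ → Tm, Good σ → Good τ →
    (φ.sub σ).sub τ = φ.sub (fun i => (σ i).sub τ) := by
  induction φ with
  | bot => intro σ τ _ _; rfl
  | eq s t => intro σ τ _ _; simp only [Fm.sub, tm_sub_sub]
  | le s t => intro σ τ _ _; simp only [Fm.sub, tm_sub_sub]
  | orc t => intro σ τ _ _; simp only [Fm.sub, tm_sub_sub]
  | imp φ ψ ih1 ih2 =>
    intro σ τ h1 h2
    simp only [Fm.sub, ih1 σ τ h1 h2, ih2 σ τ h1 h2]
  | all y φ ih =>
    intro σ τ h1 h2
    simp only [Fm.sub]
    rw [ih _ _ (h1.upd y) (h2.upd y)]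
    congr 2
    funext i
    by_cases hi : i = y
    · subst hi
      simp [Tm.sub]
    · rw [Function.update_of_ne hi, Function.update_of_ne hi]
      rcases h1 i with h | h
      · rw [sub_closed _ h, sub_closed _ h]
      · rw [h]
        simp only [Tm.sub]
        rw [Function.update_of_ne hi]

theorem tm_sub_congr (t : Tm) (σ τ : ℕ → Tm) (h : ∀ i, t.Occ i → σ i = τ i) :
    t.sub σ = t.sub τ := by
  induction t with
  | var i => exact h i rfl
  | zero => rfl
  | succ t ih => simp only [Tm.sub, ih (fun i hi => h i hi)]
  | half t ih => simp only [Tm.sub, ih (fun i hi => h i hi)]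
  | len t ih => simp only [Tm.sub, ih (fun i hi => h i hi)]
  | add s t ih1 ih2 =>
    simp only [Tm.sub, ih1 (fun i hi => h i (Or.inl hi)), ih2 (fun i hi => h i (Or.inr hi))]
  | mul s t ih1 ih2 =>
    simp only [Tm.sub, ih1 (fun i hi => h i (Or.inl hi)), ih2 (fun i hi => h i (Or.inr hi))]
  | smash s t ih1 ih2 =>
    simp only [Tm.sub, ih1 (fun i hi => h i (Or.inl hi)), ih2 (fun i hi => h i (Or.inr hi))]

theorem fm_sub_congr (φ : Fm) : ∀ σ τ : ℕ → Tm, (∀ i, φ.Free i → σ i = τ i) →
    φ.sub σ = φ.sub τ := by
  induction φ with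
  | bot => intro σ τ _; rfl
  | eq s t =>
    intro σ τ h
    simp only [Fm.sub, tm_sub_congr s σ τ (fun i hi => h i (Or.inl hi)),
      tm_sub_congr t σ τ (fun i hi => h i (Or.inr hi))]
  | le s t =>
    intro σ τ h
    simp only [Fm.sub, tm_sub_congr s σ τ (fun i hi => h i (Or.inl hi)),
      tm_sub_congr t σ τ (fun i hi => h i (Or.inr hi))]
  | orc t =>
    intro σ τ h
    simp only [Fm.sub, tm_sub_congr t σ τ (fun i hi => h i hi)]
  | imp φ ψ ih1 ih2 =>
    intro σ τ h
    simp only [Fm.sub, ih1 σ τ (fun i hi => h i (Or.inl hi)),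
      ih2 σ τ (fun i hi => h i (Or.inr hi))]
  | all y φ ih =>
    intro σ τ h
    simp only [Fm.sub]
    congr 1
    apply ih
    intro i hi
    by_cases hy : i = y
    · subst hy
      simp
    · rw [Function.update_of_ne hy, Function.update_of_ne hy]
      exact h i ⟨fun h' => hy h'.symm, hi⟩

/-- closed terms are free for all variables -/
theorem freeFor_closed (φ : Fm) (x : ℕ) (t : Tm) (ht : Closed t) : φ.FreeFor x t := by
  induction φ with
  | bot => trivial
  | eq s t => trivial
  | le s t => trivial
  | orc t => trivial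
  | imp φ ψ ih1 ih2 => exact ⟨ih1, ih2⟩
  | all y φ ih => exact Or.inr (Or.inr ⟨ht y, ih⟩)

theorem good_single (k c : ℕ) : Good (Function.update Tm.var k (num c)) := by
  intro i
  by_cases hi : i = k
  · subst hi
    left
    rw [Function.update_self]
    exact closed_num c
  · right
    rw [Function.update_of_ne hi]

theorem good_s1 (e : ℕ) : Good (s1 e) := by
  intro i
  unfold s1
  split_ifs
  · exact Or.inl (closed_num e)
  · exact Or.inr rfl

theorem good_s2 (e u : ℕ) : Good (s2 e u) := by
  intro i
  unfold s2
  split_ifs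
  · exact Or.inl (closed_num e)
  · exact Or.inl (closed_num u)
  · exact Or.inr rfl

theorem good_s3 (e u x : ℕ) : Good (s3 e u x) := by
  intro i
  unfold s3
  split_ifs
  · exact Or.inl (closed_num e)
  · exact Or.inl (closed_num u)
  · exact Or.inl (closed_num x)
  · exact Or.inr rfl

/-- the update with the variable itself does nothing -/
theorem upd_id {σ : ℕ → Tm} {y : ℕ} (h : σ y = Tm.var y) :
    Function.update σ y (Tm.var y) = σ := by
  rw [← h, Function.update_eq_self]

theorem single_ne {k c y : ℕ} (h : y ≠ k) :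
    Function.update Tm.var k (num c) y = Tm.var y := Function.update_of_ne h _ _

theorem upd_single {k c y : ℕ} (h : y ≠ k) :
    Function.update (Function.update Tm.var k (num c)) y (Tm.var y) =
      Function.update Tm.var k (num c) := upd_id (single_ne h)

/-- RF-SUB -/
theorem main : S_SUB := by
  intro Pr μ hμ n e u x z
  refine ⟨?_, ?_, ?_, ?_⟩
  · have h := LogAx.inst 0 (num e) (Fm.all 1 (Fm.all 2 (Fm.all 3 (mat Pr μ n))))
      (freeFor_closed _ _ _ (closed_num e))
    have h1 : (Fm.all 1 (Fm.all 2 (Fm.all 3 (mat Pr μ n)))).sub1 0 (num e) = J1 Pr μ n e := by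
      unfold Fm.sub1 J1
      simp only [Fm.sub]
      rw [upd_single (by decide), upd_single (by decide), upd_single (by decide)]
      congr 4
      funext i
      unfold s1
      by_cases hi : i = 0
      · subst hi
        simp
      · rw [Function.update_of_ne hi, if_neg hi]
    rw [h1] at h
    exact h
  · have h := LogAx.inst 1 (num u) (Fm.all 2 (Fm.all 3 ((mat Pr μ n).sub (s1 e))))
      (freeFor_closed _ _ _ (closed_num u))
    have h1 : (Fm.all 2 (Fm.all 3 ((mat Pr μ n).sub (s1 e)))).sub1 1 (num u) =
        J2 Pr μ n e u := by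
      unfold Fm.sub1 J2
      simp only [Fm.sub]
      rw [upd_single (by decide), upd_single (by decide),
        fm_sub_sub _ _ _ (good_s1 e) (good_single 1 u)]
      congr 3
      funext i
      unfold s1 s2
      by_cases h0 : i = 0
      · rw [if_pos h0, if_pos h0, num_sub]
      · rw [if_neg h0, if_neg h0]
        simp only [Tm.sub]
        by_cases h1 : i = 1
        · subst h1
          simp
        · rw [if_neg h1, Function.update_of_ne h1]
    rw [h1] at h
    exact h
  · have h := LogAx.inst 2 (num x) (Fm.all 3 ((mat Pr μ n).sub (s2 e u)))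
      (freeFor_closed _ _ _ (closed_num x))
    have h1 : (Fm.all 3 ((mat Pr μ n).sub (s2 e u))).sub1 2 (num x) = J3 Pr μ n e u x := by
      unfold Fm.sub1 J3
      simp only [Fm.sub]
      rw [upd_single (by decide), fm_sub_sub _ _ _ (good_s2 e u) (good_single 2 x)]
      congr 2
      funext i
      unfold s2 s3
      by_cases h0 : i = 0
      · rw [if_pos h0, if_pos h0, num_sub]
      · rw [if_neg h0, if_neg h0]
        by_cases h1 : i = 1
        · rw [if_pos h1, if_pos h1, num_sub]
        · rw [if_neg h1, if_neg h1]
          simp only [Tm.sub]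
          by_cases h2 : i = 2
          · subst h2
            simp
          · rw [if_neg h2, Function.update_of_ne h2]
    rw [h1] at h
    exact h
  · have h := LogAx.inst 3 (num z) ((mat Pr μ n).sub (s3 e u x))
      (freeFor_closed _ _ _ (closed_num z))
    have h1 : ((mat Pr μ n).sub (s3 e u x)).sub1 3 (num z) = J4 Pr μ n e u x z := by
      unfold Fm.sub1
      rw [fm_sub_sub _ _ _ (good_s3 e u x) (good_single 3 z)]
      have h2 : (fun i => (s3 e u x i).sub (Function.update Tm.var 3 (num z))) =
          fun i => if i = 0 then num e else if i = 1 then num u else if i = 2 then num x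
            else if i = 3 then num z else Tm.var i := by
        funext i
        unfold s3
        split_ifs with h0 h1 h2 h3
        · rw [num_sub]
        · rw [num_sub]
        · rw [num_sub]
        · subst h3
          simp [Tm.sub]
        · simp only [Tm.sub]
          rw [Function.update_of_ne h3]
      rw [h2]
      have h3 : μ.sub (fun i => if i = 0 then num e else if i = 1 then num u else if i = 2
          then num x else if i = 3 then num z else Tm.var i) = at3 μ e x z := by
        unfold at3
        apply fm_sub_congr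
        intro i hi
        rcases hμ i hi with rfl | rfl | rfl <;> simp
      unfold mat J4 J5 J6 J7 J8 lenLe at4
      simp only [Fm.sub, Tm.sub, num_sub, h3]
      simp
    rw [h1] at h
    exact h

end Pool.Agent.J6H22.RF
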