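import Pool.Agent.J6H50.RF.Stm

/-!
# RF-22 (project RF of helper50, module by helper22)

The tally version of the language of `Cond` is in `Π_2^P`.
-/

set_option autoImplicit false

namespace Pool.Agent.J6H22.RF22

open Pool.Agent.J6H50.RF Pool.Agent.NPC

/-- the universal certificates: `e`, `n`, `t` (in unary), the quadruple, and a certificate -/
abbrev Y : Type := (ℕ × ℕ × List Unit) × (ℕ × ℕ × ℕ × ℕ) × T

theorem poly_bitsOf {ι : Type} [TEnc ι] : Poly (fun x : ι => (bits x : List Bool)) := by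
  obtain ⟨c, p, h⟩ := PC.rawIn
  exact ⟨c, p, fun a => h (bits a)⟩

theorem upoly_sz {α β : Type} [TEnc α] [TEnc β] {f : α → β} (hf : Poly f) :
    UPoly (fun a => sz (f a)) :=
  UPoly.length (poly_bitsOf.comp hf)

/-- the test of a certificate, with the bound for its size -/
noncomputable def VV (V : List ℕ × T → Bool) (q : Polynomial ℕ) (p : List ℕ × T) : Bool :=
  V p && decide (sz p.2 ≤ q.eval (sz p.1))

theorem poly_VV {V : List ℕ × T → Bool} (hV : Poly V) (q : Polynomial ℕ) : Poly (VV V q) :=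
  NPC.Poly.and hV (NPC.Poly.decide_le (upoly_sz (NPC.Poly.snd NPC.Poly.id)).toPoly
    (UPoly.eval (upoly_sz (NPC.Poly.fst NPC.Poly.id)) q).toPoly)

/-- `2 ^ t` for `t` in unary -/
def pw (l : List Unit) : ℕ := valB (l.map (fun _ => false) ++ [true])

theorem pw_eq (l : List Unit) : pw l = 2 ^ l.length := by
  have h : l.map (fun _ => false) = List.replicate l.length false := by
    induction l with
    | nil => rfl
    | cons a l ih => rw [List.map_cons, ih, List.length_cons, List.replicate_succ]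
  rw [pw, h, valB_replicate_false, if_pos rfl, mul_one]

theorem poly_pw : Poly pw :=
  NPC.Poly.valBits (NPC.Poly.append (NPC.Poly.map (F := fun _ _ => false) NPC.Poly.id (NPC.Poly.const false))
    (NPC.Poly.const [true]))

/-- the first list of values -/
def lA (w : Y) : List ℕ :=
  [w.1.1, qd w.2.1.1 w.2.1.2.1 w.2.1.2.2.1 w.2.1.2.2.2, pw w.1.2.2]

/-- the second list of values -/
def lB (w : Y) : List ℕ := [w.2.1.1, w.2.1.2.1, w.2.1.2.2.1]

theorem poly_pr {α : Type} [TEnc α] {a b : α → ℕ} (ha : Poly a) (hb : Poly b) :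
    Poly (fun x => pr (a x) (b x)) :=
  NPC.Poly.add (NPC.Poly.mul (NPC.Poly.add ha hb) (NPC.Poly.add ha hb)) ha

theorem poly_lA : Poly lA := by
  have h1 : Poly (fun w : Y => w.2.1.1) := NPC.Poly.fst (NPC.Poly.fst (NPC.Poly.snd NPC.Poly.id))
  have h2 : Poly (fun w : Y => w.2.1.2.1) := NPC.Poly.fst (NPC.Poly.snd (NPC.Poly.fst (NPC.Poly.snd NPC.Poly.id)))
  have h3 : Poly (fun w : Y => w.2.1.2.2.1) :=
    NPC.Poly.fst (NPC.Poly.snd (NPC.Poly.snd (NPC.Poly.fst (NPC.Poly.snd NPC.Poly.id))))
  have h4 : Poly (fun w : Y => w.2.1.2.2.2) :=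
    NPC.Poly.snd (NPC.Poly.snd (NPC.Poly.snd (NPC.Poly.fst (NPC.Poly.snd NPC.Poly.id))))
  exact NPC.Poly.cons (NPC.Poly.fst (NPC.Poly.fst NPC.Poly.id)) (NPC.Poly.cons
    (poly_pr (poly_pr h1 h2) (poly_pr h3 h4))
    (NPC.Poly.cons (poly_pw.comp (NPC.Poly.snd (NPC.Poly.snd (NPC.Poly.fst NPC.Poly.id)))) (NPC.Poly.const [])))

theorem poly_lB : Poly lB :=
  NPC.Poly.cons (NPC.Poly.fst (NPC.Poly.fst (NPC.Poly.snd NPC.Poly.id))) (NPC.Poly.cons
    (NPC.Poly.fst (NPC.Poly.snd (NPC.Poly.fst (NPC.Poly.snd NPC.Poly.id)))) (NPC.Poly.cons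
    (NPC.Poly.fst (NPC.Poly.snd (NPC.Poly.snd (NPC.Poly.fst (NPC.Poly.snd NPC.Poly.id))))) (NPC.Poly.const [])))

/-- the conditions on the universal certificate -/
noncomputable def B1 (V : List ℕ × T → Bool) (q : Polynomial ℕ) (p : List Bool × Y) : Bool :=
  decide (p.1.length = pr p.2.1.1 (pr p.2.1.2.1 p.2.1.2.2.length)) &&
  (p.1.all (fun b => b) &&
  (decide (p.2.2.1.1.bits.length ≤ p.2.1.2.1) &&
  (decide (p.2.2.1.2.1.bits.length ≤ p.2.1.2.1) &&
  (decide (p.2.2.1.2.2.1.bits.length ≤ p.2.1.2.1) &&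
  (decide (p.2.2.1.2.2.2.bits.length ≤ p.2.1.2.1) &&
  VV V q (lA p.2, p.2.2.2))))))

theorem poly_B1 {V : List ℕ × T → Bool} (hV : Poly V) (q : Polynomial ℕ) : Poly (B1 V q) := by
  have hw : Poly (fun p : List Bool × Y => p.2) := NPC.Poly.snd NPC.Poly.id
  have hn : Poly (fun p : List Bool × Y => p.2.1.2.1) := NPC.Poly.fst (NPC.Poly.snd (NPC.Poly.fst hw))
  have h1 : Poly (fun p : List Bool × Y => p.2.2.1.1) := NPC.Poly.fst (NPC.Poly.fst (NPC.Poly.snd hw))
  have h2 : Poly (fun p : List Bool × Y => p.2.2.1.2.1) :=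
    NPC.Poly.fst (NPC.Poly.snd (NPC.Poly.fst (NPC.Poly.snd hw)))
  have h3 : Poly (fun p : List Bool × Y => p.2.2.1.2.2.1) :=
    NPC.Poly.fst (NPC.Poly.snd (NPC.Poly.snd (NPC.Poly.fst (NPC.Poly.snd hw))))
  have h4 : Poly (fun p : List Bool × Y => p.2.2.1.2.2.2) :=
    NPC.Poly.snd (NPC.Poly.snd (NPC.Poly.snd (NPC.Poly.fst (NPC.Poly.snd hw))))
  refine NPC.Poly.and (NPC.Poly.decide_eq (NPC.Poly.length (NPC.Poly.fst NPC.Poly.id)) (poly_pr
    (NPC.Poly.fst (NPC.Poly.fst hw)) (poly_pr hn (NPC.Poly.length (NPC.Poly.snd (NPC.Poly.snd (NPC.Poly.fst hw)))))))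
    (NPC.Poly.and (NPC.Poly.all (p := fun _ b => b) (NPC.Poly.fst NPC.Poly.id) (NPC.Poly.snd NPC.Poly.id))
    (NPC.Poly.and (NPC.Poly.decide_le (NPC.Poly.length h1.natBits) hn)
    (NPC.Poly.and (NPC.Poly.decide_le (NPC.Poly.length h2.natBits) hn)
    (NPC.Poly.and (NPC.Poly.decide_le (NPC.Poly.length h3.natBits) hn)
    (NPC.Poly.and (NPC.Poly.decide_le (NPC.Poly.length h4.natBits) hn)
    ((poly_VV hV q).comp (NPC.Poly.pair (poly_lA.comp hw) (NPC.Poly.snd (NPC.Poly.snd hw)))))))))

/-- the relation -/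
noncomputable def R (V : List ℕ × T → Bool) (q : Polynomial ℕ) (p : List Bool × T × T) : Bool :=
  match (TDec.dec p.2.1 : Option Y) with
  | none => true
  | some w => bif B1 V q (p.1, w) then VV V q (lB w, p.2.2) else true

theorem poly_R {V : List ℕ × T → Bool} (hV : Poly V) (q : Polynomial ℕ) : Poly (R V q) := by
  have h2 : Poly (fun a : (List Bool × T × T) × Y =>
      bif B1 V q (a.1.1, a.2) then VV V q (lB a.2, a.1.2.2) else true) :=
    NPC.Poly.cond ((poly_B1 hV q).comp (NPC.Poly.pair (NPC.Poly.fst (NPC.Poly.fst NPC.Poly.id))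
      (NPC.Poly.snd NPC.Poly.id))) ((poly_VV hV q).comp (NPC.Poly.pair
      (poly_lB.comp (NPC.Poly.snd NPC.Poly.id))
      (NPC.Poly.snd (NPC.Poly.snd (NPC.Poly.fst NPC.Poly.id))))) (NPC.Poly.const true)
  refine (NPC.Poly.optCases (o := fun p : List Bool × T × T => (TDec.dec p.2.1 : Option Y))
    (g := fun _ => true)
    (h := fun p w => bif B1 V q (p.1, w) then VV V q (lB w, p.2.2) else true)
    (TDec.poly_dec.comp (NPC.Poly.fst (NPC.Poly.snd NPC.Poly.id))) (NPC.Poly.const true)
    h2).congr fun p => ?_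
  unfold R
  cases (TDec.dec p.2.1 : Option Y) <;> rfl

theorem sz_le_of_lt {a n : ℕ} (h : a < 2 ^ n) : sz a ≤ 4 * n + 1 := by
  have h1 := sz_nat_le a
  have h2 := Nat.size_le.2 h
  omega

theorem sz_le_self (n : ℕ) : sz n ≤ 4 * n + 1 := sz_le_of_lt Nat.lt_two_pow_self

theorem sz_units (n : ℕ) : sz (List.replicate n ()) = 2 * n + 1 := by
  induction n with
  | zero => rfl
  | succ n ih =>
    rw [List.replicate_succ, sz_list_cons, ih, sz_unit]
    ring

theorem pr_le (a b : ℕ) : a ≤ pr a b ∧ b ≤ pr a b := by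
  have h := Nat.le_mul_self (a + b)
  unfold pr
  constructor <;> omega

theorem lt_iff (a n : ℕ) : a.bits.length ≤ n ↔ a < 2 ^ n := by
  rw [Nat.size_eq_bits_len, Nat.size_le]

/-- **RF-22.** -/
theorem m22 : S_tpi2 := by
  intro hpi hnp μ hμ
  obtain ⟨V, q, hV, hVq⟩ := hnp μ hμ
  obtain ⟨P, hP⟩ := poly_lA.sz_le
  -- the bounds
  set Q : Polynomial ℕ := Polynomial.C 100 * Polynomial.X + Polynomial.C 100 +
    q.comp (P.comp (Polynomial.C 100 * Polynomial.X + Polynomial.C 100)) +
    q.comp (Polynomial.C 100 * Polynomial.X + Polynomial.C 100) with hQ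
  have hQe : ∀ N, Q.eval N = 100 * N + 100 + q.eval (P.eval (100 * N + 100)) +
      q.eval (100 * N + 100) := by
    intro N
    simp only [hQ, Polynomial.eval_add, Polynomial.eval_mul, Polynomial.eval_C,
      Polynomial.eval_X, Polynomial.eval_comp]
  have hVVs : ∀ l : List ℕ, μ.Sat Nn (asg l) ↔ ∃ c : T, VV V q (l, c) = true := by
    intro l
    rw [hVq l]
    constructor
    · rintro ⟨c, h1, h2⟩
      exact ⟨c, by simp only [VV, h2, Bool.true_and, decide_eq_true_eq]; exact h1⟩
    · rintro ⟨c, h⟩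
      simp only [VV, Bool.and_eq_true, decide_eq_true_eq] at h
      exact ⟨c, h.2, h.1⟩
  refine hpi (R V q) Q (poly_R hV q) _ fun X => ?_
  constructor
  · -- the language is contained in the projection
    intro hX y _
    rcases hd : (TDec.dec y : Option Y) with _ | w
    · refine ⟨T.nil, ?_, ?_⟩
      · rw [hQe]
        have : sz T.nil = 1 := rfl
        omega
      · simp only [R, hd]
    · by_cases hB : B1 V q (X, w) = true
      · obtain ⟨⟨e, n, τ⟩, ⟨a, x, z, u⟩, c⟩ := w
        have hB' := hB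
        simp only [B1, Bool.and_eq_true, decide_eq_true_eq, List.all_eq_true] at hB'
        obtain ⟨b1, b2, b3, b4, b5, b6, b7⟩ := hB'
        rw [lt_iff] at b3 b4 b5 b6
        have hXe : X = List.replicate (pr e (pr n τ.length)) true := by
          rw [List.eq_replicate_iff]
          exact ⟨b1, b2⟩
        have hC := hX e n τ.length hXe a x z u b3 b4 b5 b6
        have h1 : μ.Sat Nn (asg [e, qd a x z u, 2 ^ τ.length]) := by
          rw [hVVs, ← pw_eq]
          exact ⟨c, b7⟩
        have h2 := hC h1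
        rw [hVVs] at h2
        obtain ⟨Z, hZ⟩ := h2
        refine ⟨Z, ?_, ?_⟩
        · simp only [VV, Bool.and_eq_true, decide_eq_true_eq] at hZ
          refine hZ.2.trans ?_
          have hnN : n ≤ X.length := by
            rw [b1]
            exact (pr_le n τ.length).1.trans (pr_le e _).2
          have e1 := sz_le_of_lt b3
          have e2 := sz_le_of_lt b4
          have e3 := sz_le_of_lt b5
          have e4 : sz [a, x, z] ≤ 100 * X.length + 100 := by
            simp only [sz_list_cons, sz_list_nil]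
            omega
          have e5 := eval_mono q e4
          rw [hQe]
          omega
        · simp only [R, hd, hB, cond_true]
          exact hZ
      · refine ⟨T.nil, ?_, ?_⟩
        · rw [hQe]
          have : sz T.nil = 1 := rfl
          omega
        · simp only [R, hd]
          rw [Bool.not_eq_true] at hB
          rw [hB]
          rfl
  · -- conversely
    intro h e n t hX a x z u ha hx hz hu hs
    rw [hVq] at hs
    obtain ⟨c, hc1, hc2⟩ := hs
    have hXl : X.length = pr e (pr n t) := by rw [hX, List.length_replicate]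
    have heN : e ≤ X.length := by
      rw [hXl]
      exact (pr_le e _).1
    have hnN : n ≤ X.length := by
      rw [hXl]
      exact (pr_le n t).1.trans (pr_le e _).2
    have htN : t ≤ X.length := by
      rw [hXl]
      exact (pr_le n t).2.trans (pr_le e _).2
    have e0 := sz_le_self e
    have e0' := sz_le_self n
    have e1 := sz_le_of_lt ha
    have e2 := sz_le_of_lt hx
    have e3 := sz_le_of_lt hz
    have e4 := sz_le_of_lt hu
    have e5 := sz_units t
    set w : Y := ((e, n, List.replicate t ()), (a, x, z, u), c) with hw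
    have hlA : lA w = [e, qd a x z u, 2 ^ t] := by
      simp only [hw, lA, pw_eq, List.length_replicate]
    have hcsz : sz c ≤ q.eval (P.eval (100 * X.length + 100)) := by
      refine hc1.trans (eval_mono q ?_)
      have h1 := hP ((e, n, List.replicate t ()), (a, x, z, u), T.nil)
      have h2 : lA ((e, n, List.replicate t ()), (a, x, z, u), T.nil) =
          [e, qd a x z u, 2 ^ t] := by
        simp only [lA, pw_eq, List.length_replicate]
      rw [h2] at h1
      refine h1.trans (eval_mono P ?_)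
      have h3 : sz T.nil = 1 := rfl
      simp only [sz_pair]
      omega
    have hysz : sz (toT w) ≤ Q.eval X.length := by
      have h1 : sz (toT w) = sz w := rfl
      rw [h1, hw, hQe]
      simp only [sz_pair]
      omega
    obtain ⟨Z, hZ1, hZ2⟩ := h (toT w) hysz
    have hB : B1 V q (X, w) = true := by
      simp only [B1, Bool.and_eq_true, decide_eq_true_eq, List.all_eq_true]
      refine ⟨?_, ?_, ?_, ?_, ?_, ?_, ?_⟩
      · rw [hXl, List.length_replicate]
      · intro b hb
        rw [hX] at hb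
        exact List.eq_of_mem_replicate hb
      · rw [lt_iff]; exact ha
      · rw [lt_iff]; exact hx
      · rw [lt_iff]; exact hz
      · rw [lt_iff]; exact hu
      · simp only [VV, Bool.and_eq_true, decide_eq_true_eq]
        rw [hlA]
        exact ⟨hc2, hc1⟩
    simp only [R, TDec.dec_toT, hB, cond_true] at hZ2
    rw [hVVs]
    exact ⟨Z, hZ2⟩

end Pool.Agent.J6H22.RF22
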